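import Mathlib

set_option autoImplicit false

namespace Pool.Agent.W269.Mae

/-- Scalar form of the identity. -/
theorem scalar_identity
    (b01 b02 b03 b04 b12 b13 b14 b23 b24 b34 f01 f02 f03 f04 f12 f13 f14 f23 f24 f34
      t0 t1 t2 t3 t4 : ℝ)
    (z22 : b23 * f23 + b24 * f24 = t2 - 1 - (b02 * f02 + b12 * f12))
    (z23 : b24 * f34 = t2 - (b02 * f03 + b12 * f13))
    (z24 : b23 * f34 = t2 - (b02 * f04 + b12 * f14))
    (z32 : b34 * f24 = t3 - (b03 * f02 + b13 * f12))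
    (z33 : b23 * f23 + b34 * f34 = t3 - 1 - (b03 * f03 + b13 * f13))
    (z34 : b23 * f24 = t3 - (b03 * f04 + b13 * f14))
    (z42 : b34 * f23 = t4 - (b04 * f02 + b14 * f12))
    (z43 : b24 * f23 = t4 - (b04 * f03 + b14 * f13))
    (z44 : b24 * f24 + b34 * f34 = t4 - 1 - (b04 * f04 + b14 * f14))
    (y00 : -(t2 + t3 + t4) = t0 + t1)
    (y01 : b02 + b03 + b04 = t0 - b01)
    (y02 : b12 + b13 + b14 = t1 - b01)
    (y10 : -(f02 * t2 + f03 * t3 + f04 * t4) = 1 + f01 * t1)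
    (y11 : f02 * b02 + f03 * b03 + f04 * b04 = t0 - 1 - f01 * b01)
    (y12 : f02 * b12 + f03 * b13 + f04 * b14 = t1)
    (y20 : -(f12 * t2 + f13 * t3 + f14 * t4) = 1 + f01 * t0)
    (y21 : f12 * b02 + f13 * b03 + f14 * b04 = t0)
    (y22 : f12 * b12 + f13 * b13 + f14 * b14 = t1 - 1 - f01 * b01) :
    1 + 4 * (t0 + t1) + 4 * f01 * b01 + 8 * t0 * t1 * f01 - 8 * b01 = 0 := by
  -- square of half the trace equals the second elementary invariant, for the block product
  have q : ((b23 * f23 + b24 * f24) + (b23 * f23 + b34 * f34) + (b24 * f24 + b34 * f34)) ^ 2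
      = 4 * ((b23 * f23 + b24 * f24) * (b23 * f23 + b34 * f34) - (b24 * f34) * (b34 * f24)
        + ((b23 * f23 + b24 * f24) * (b24 * f24 + b34 * f34) - (b23 * f34) * (b34 * f23))
        + ((b23 * f23 + b34 * f34) * (b24 * f24 + b34 * f34) - (b23 * f24) * (b24 * f23))) := by
    ring
  rw [z22, z23, z24, z32, z33, z34, z42, z43, z44] at q
  -- the same in terms of the transposed product
  have c : (3 + (-(t2 + t3 + t4) + (f02 * b02 + f03 * b03 + f04 * b04)
        + (f12 * b12 + f13 * b13 + f14 * b14))) ^ 2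
      = 4 * (3 + 2 * (-(t2 + t3 + t4) + (f02 * b02 + f03 * b03 + f04 * b04)
        + (f12 * b12 + f13 * b13 + f14 * b14))
        + ((-(t2 + t3 + t4)) * (f02 * b02 + f03 * b03 + f04 * b04)
            - (b02 + b03 + b04) * (-(f02 * t2 + f03 * t3 + f04 * t4))
          + ((-(t2 + t3 + t4)) * (f12 * b12 + f13 * b13 + f14 * b14)
            - (b12 + b13 + b14) * (-(f12 * t2 + f13 * t3 + f14 * t4)))
          + ((f02 * b02 + f03 * b03 + f04 * b04) * (f12 * b12 + f13 * b13 + f14 * b14)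
            - (f02 * b12 + f03 * b13 + f04 * b14) * (f12 * b02 + f13 * b03 + f14 * b04)))) := by
    linear_combination q
  rw [y00, y01, y02, y10, y11, y12, y20, y21, y22] at c
  linear_combination c

/-- The algebraic identity behind the theorem (pair `0,1`, complementary triple `2,3,4`). -/
theorem pair_identity (B F : Fin 5 → Fin 5 → ℝ) (t : Fin 5 → ℝ)
    (hFs : ∀ i j, F i j = F j i) (hF0 : ∀ i, F i i = 0)
    (hBs : ∀ i j, B i j = B j i) (hB0 : ∀ i, B i i = 0)
    (hBF : ∀ i j, ∑ k, B i k * F k j = t i - if i = j then 1 else 0)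
    (hB1 : ∀ i, ∑ k, B i k = t i)
    (hFt : ∀ i, ∑ k, F i k * t k = -1)
    (ht : ∑ k, t k = 0) :
    1 + 4 * (t 0 + t 1) + 4 * F 0 1 * B 0 1 + 8 * t 0 * t 1 * F 0 1 - 8 * B 0 1 = 0 := by
  simp only [Fin.sum_univ_five] at hBF hB1 hFt ht
  have e00 := hBF 0 0
  have e01 := hBF 0 1
  have e10 := hBF 1 0
  have e11 := hBF 1 1
  have e22 := hBF 2 2
  have e23 := hBF 2 3
  have e24 := hBF 2 4
  have e32 := hBF 3 2
  have e33 := hBF 3 3
  have e34 := hBF 3 4
  have e42 := hBF 4 2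
  have e43 := hBF 4 3
  have e44 := hBF 4 4
  have r0 := hB1 0
  have r1 := hB1 1
  have f0 := hFt 0
  have f1 := hFt 1
  simp only [hF0, hB0, hFs 1 0, hFs 2 0, hFs 3 0, hFs 4 0, hFs 2 1, hFs 3 1, hFs 4 1, hFs 3 2,
    hFs 4 2, hFs 4 3, hBs 1 0, hBs 2 0, hBs 3 0, hBs 4 0, hBs 2 1, hBs 3 1, hBs 4 1, hBs 3 2,
    hBs 4 2, hBs 4 3] at e00 e01 e10 e11 e22 e23 e24 e32 e33 e34 e42 e43 e44 r0 r1 f0 f1
  norm_num [Fin.ext_iff] at e00 e01 e10 e11 e22 e23 e24 e32 e33 e34 e42 e43 e44 r0 r1 f0 f1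
  refine scalar_identity (B 0 1) (B 0 2) (B 0 3) (B 0 4) (B 1 2) (B 1 3) (B 1 4) (B 2 3) (B 2 4)
    (B 3 4) (F 0 1) (F 0 2) (F 0 3) (F 0 4) (F 1 2) (F 1 3) (F 1 4) (F 2 3) (F 2 4) (F 3 4)
    (t 0) (t 1) (t 2) (t 3) (t 4) ?_ ?_ ?_ ?_ ?_ ?_ ?_ ?_ ?_ ?_ ?_ ?_ ?_ ?_ ?_ ?_ ?_ ?_
  · linear_combination e22
  · linear_combination e23
  · linear_combination e24
  · linear_combination e32
  · linear_combination e33
  · linear_combination e34
  · linear_combination e42
  · linear_combination e43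
  · linear_combination e44
  · linear_combination -ht
  · linear_combination r0
  · linear_combination r1
  · linear_combination -f0
  · linear_combination e00
  · linear_combination e10
  · linear_combination -f1
  · linear_combination e01
  · linear_combination e11

end Pool.Agent.W269.Mae
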