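import Mathlib
import Pool.Agent.W269.MaeAlg

set_option autoImplicit false

namespace Pool.Agent.W269.Mae

/-- squared length -/
def sq (u : Fin 3 → ℝ) : ℝ := u 0 ^ 2 + u 1 ^ 2 + u 2 ^ 2

/-- squared distance -/
def sd (u v : Fin 3 → ℝ) : ℝ := (u 0 - v 0) ^ 2 + (u 1 - v 1) ^ 2 + (u 2 - v 2) ^ 2

theorem moments (x y : Fin 5 → Fin 3 → ℝ) (h : ∀ i j, i ≠ j → sd (y i) (x j) = 1)
    (hne : ∀ i, sd (y i) (x i) ≠ 1) :
    ∃ t : Fin 5 → ℝ, (∀ i, t i * ((1 - sd (y i) (x i)) / 2) = 1) ∧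
      (∑ j, t j = 0) ∧ (∀ a, ∑ j, t j * x j a = 0) ∧ (∀ a, ∑ j, t j * y j a = 0) ∧
      (∀ a b, ∑ j, t j * (x j a * y j b) = if a = b then 1 else 0) ∧
      (∑ j, t j * sq (x j) = -2) ∧ (∑ j, t j * sq (y j) = -2) ∧
      (∀ a, ∑ j, t j * (sq (x j) * y j a) = 0) ∧ (∀ a, ∑ j, t j * (x j a * sq (y j)) = 0) ∧
      (∑ j, t j * (sq (x j) * sq (y j)) = -2) := by
  obtain ⟨t, ht⟩ : ∃ t : Fin 5 → ℝ, t = fun i => ((1 - sd (y i) (x i)) / 2)⁻¹ := ⟨_, rfl⟩
  have hd : ∀ i, (1 - sd (y i) (x i)) / 2 ≠ 0 := by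
    intro i hi
    apply hne i
    linarith
  have ht1 : ∀ i, t i * ((1 - sd (y i) (x i)) / 2) = 1 := fun i => by
    rw [ht]; exact inv_mul_cancel₀ (hd i)
  clear ht
  set U : Matrix (Fin 5) (Fin 5) ℝ :=
    fun i => ![sq (y i) - 1, 1, -2 * y i 0, -2 * y i 1, -2 * y i 2] with hU
  set W : Matrix (Fin 5) (Fin 5) ℝ :=
    ![fun j => -(t j) / 2, fun j => -(t j) / 2 * sq (x j), fun j => -(t j) / 2 * x j 0,
      fun j => -(t j) / 2 * x j 1, fun j => -(t j) / 2 * x j 2] with hW
  have hUW : U * W = 1 := by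
    ext i j
    rw [Matrix.mul_apply, Fin.sum_univ_five]
    by_cases hij : i = j
    · subst hij
      rw [Matrix.one_apply_eq]
      have := ht1 i
      simp only [hU, hW, sd, sq, Matrix.cons_val_zero, Matrix.cons_val_one, Matrix.cons_val] at this ⊢
      linear_combination this
    · rw [Matrix.one_apply_ne hij]
      have := h i j hij
      simp only [hU, hW, sd, sq, Matrix.cons_val_zero, Matrix.cons_val_one, Matrix.cons_val] at this ⊢
      linear_combination (-(t j) / 2) * this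
  have hWU : W * U = 1 := mul_eq_one_comm.mp hUW
  have E : ∀ a b, ∑ j, W a j * U j b = if a = b then 1 else 0 := fun a b => by
    rw [← Matrix.mul_apply, hWU, Matrix.one_apply]
  have m01 := E 0 1
  have m11 := E 1 1
  have m00 := E 0 0
  have m10 := E 1 0
  have m02 := E 0 2
  have m03 := E 0 3
  have m04 := E 0 4
  have m12 := E 1 2
  have m13 := E 1 3
  have m14 := E 1 4
  have m20 := E 2 0
  have m30 := E 3 0
  have m40 := E 4 0
  have m21 := E 2 1
  have m31 := E 3 1
  have m41 := E 4 1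
  have m22 := E 2 2
  have m23 := E 2 3
  have m24 := E 2 4
  have m32 := E 3 2
  have m33 := E 3 3
  have m34 := E 3 4
  have m42 := E 4 2
  have m43 := E 4 3
  have m44 := E 4 4
  simp only [Fin.sum_univ_five, hU, hW, Matrix.cons_val_zero,
    Matrix.cons_val_one, Matrix.cons_val] at m00 m01 m02 m03 m04 m10 m11 m12 m13 m14 m20 m21 m22 m23 m24 m30 m31 m32 m33 m34 m40 m41 m42 m43 m44
  norm_num [Fin.ext_iff] at m00 m01 m02 m03 m04 m10 m11 m12 m13 m14 m20 m21 m22 m23 m24 m30 m31 m32 m33 m34 m40 m41 m42 m43 m44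
  have s0 : ∑ j, t j = 0 := by
    rw [Fin.sum_univ_five]; linear_combination -2 * m01
  have sx : ∀ a, ∑ j, t j * x j a = 0 := by
    intro a
    rw [Fin.sum_univ_five]
    fin_cases a
    · simp only [Fin.zero_eta, Fin.mk_one, Fin.reduceFinMk]; linear_combination -2 * m21
    · simp only [Fin.zero_eta, Fin.mk_one, Fin.reduceFinMk]; linear_combination -2 * m31
    · simp only [Fin.zero_eta, Fin.mk_one, Fin.reduceFinMk]; linear_combination -2 * m41
  have sy : ∀ a, ∑ j, t j * y j a = 0 := by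
    intro a
    rw [Fin.sum_univ_five]
    fin_cases a
    · simp only [Fin.zero_eta, Fin.mk_one, Fin.reduceFinMk]; linear_combination m02
    · simp only [Fin.zero_eta, Fin.mk_one, Fin.reduceFinMk]; linear_combination m03
    · simp only [Fin.zero_eta, Fin.mk_one, Fin.reduceFinMk]; linear_combination m04
  have sxx : ∑ j, t j * sq (x j) = -2 := by
    rw [Fin.sum_univ_five]; linear_combination -2 * m11
  have syy : ∑ j, t j * sq (y j) = -2 := by
    rw [Fin.sum_univ_five] at s0 ⊢; linear_combination -2 * m00 + s0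
  refine ⟨t, ht1, s0, sx, sy, ?_, sxx, syy, ?_, ?_, ?_⟩
  · intro a b
    rw [Fin.sum_univ_five]
    fin_cases a <;> fin_cases b <;> simp only [Fin.zero_eta, Fin.mk_one, Fin.reduceFinMk, Fin.reduceEq, if_true, if_false]
    · linear_combination m22
    · linear_combination m23
    · linear_combination m24
    · linear_combination m32
    · linear_combination m33
    · linear_combination m34
    · linear_combination m42
    · linear_combination m43
    · linear_combination m44
  · intro a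
    rw [Fin.sum_univ_five]
    fin_cases a <;> simp only [Fin.zero_eta, Fin.mk_one, Fin.reduceFinMk]
    · linear_combination m12
    · linear_combination m13
    · linear_combination m14
  · intro a
    have sxa := sx a
    rw [Fin.sum_univ_five] at sxa ⊢
    fin_cases a <;> simp only [Fin.zero_eta, Fin.mk_one, Fin.reduceFinMk] at sxa ⊢
    · linear_combination -2 * m20 + sxa
    · linear_combination -2 * m30 + sxa
    · linear_combination -2 * m40 + sxa
  · rw [Fin.sum_univ_five] at sxx ⊢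
    linear_combination -2 * m10 + sxx

theorem sd_le_four (u v w : Fin 3 → ℝ) (h1 : sd w u = 1) (h2 : sd w v = 1) : sd u v ≤ 4 := by
  unfold sd at *
  nlinarith [sq_nonneg (w 0 - u 0 + (w 0 - v 0)), sq_nonneg (w 1 - u 1 + (w 1 - v 1)),
    sq_nonneg (w 2 - u 2 + (w 2 - v 2))]

theorem sd_comm (u v : Fin 3 → ℝ) : sd u v = sd v u := by unfold sd; ring

/-- two indices with positive weight are impossible -/
theorem key01 (x y : Fin 5 → Fin 3 → ℝ) (h : ∀ i j, i ≠ j → sd (y i) (x j) = 1)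
    (hne : ∀ i, sd (y i) (x i) ≠ 1) (h0 : sd (y 0) (x 0) < 1) (h1 : sd (y 1) (x 1) < 1) :
    False := by
  obtain ⟨t, ht, s0, sx, sy, sxy, sxx, syy, sxxy, sxyy, sxxyy⟩ := moments x y h hne
  have t0 : 0 < t 0 := by
    by_contra hc
    push Not at hc
    have := ht 0
    nlinarith
  have t1 : 0 < t 1 := by
    by_contra hc
    push Not at hc
    have := ht 1
    nlinarith
  have C4 : sd (x 0) (x 1) ≤ 4 := sd_le_four _ _ (y 2) (h 2 0 (by decide)) (h 2 1 (by decide))
  have P4 : sd (y 0) (y 1) ≤ 4 := sd_le_four _ _ (x 2) (by rw [sd_comm]; exact h 0 2 (by decide))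
    (by rw [sd_comm]; exact h 1 2 (by decide))
  have Cn : 0 ≤ sd (x 0) (x 1) := by unfold sd; positivity
  have Pn : 0 ≤ sd (y 0) (y 1) := by unfold sd; positivity
  have key := pair_identity (fun i j => -(1/2) * t i * t j * sd (y i) (y j))
    (fun i j => (1/2) * sd (x i) (x j)) t
    (fun i j => by rw [sd_comm]) (fun i => by simp [sd])
    (fun i j => by rw [sd_comm (y i)]; ring) (fun i => by simp [sd])
    ?_ ?_ ?_ s0
  · have : t 0 * t 1 * (4 * sd (x 0) (x 1) + 4 * sd (y 0) (y 1)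
        - sd (x 0) (x 1) * sd (y 0) (y 1)) ≥ 0 := by
      apply mul_nonneg (by positivity)
      nlinarith
    nlinarith
  · intro i j
    have hji : (t i / 2) * (sd (y i) (x j) + 1) = t i - if i = j then 1 else 0 := by
      split_ifs with hij
      · subst hij; linear_combination -(ht i)
      · rw [h i j hij]; ring
    rw [← hji]
    have a0 := sx 0
    have a1 := sx 1
    have a2 := sx 2
    have b0 := sy 0
    have b1 := sy 1
    have b2 := sy 2
    have c00 := sxy 0 0
    have c01 := sxy 0 1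
    have c02 := sxy 0 2
    have c10 := sxy 1 0
    have c11 := sxy 1 1
    have c12 := sxy 1 2
    have c20 := sxy 2 0
    have c21 := sxy 2 1
    have c22 := sxy 2 2
    have d0 := sxxy 0
    have d1 := sxxy 1
    have d2 := sxxy 2
    have e0 := sxyy 0
    have e1 := sxyy 1
    have e2 := sxyy 2
    simp only [Fin.sum_univ_five, sd, sq, Fin.reduceEq, if_true, if_false] at a0 a1 a2 b0 b1 b2 c00 c01 c02 c10 c11 c12 c20 c21 c22 d0 d1 d2 e0 e1 e2 s0 sxx syy sxxyy ⊢
    linear_combination (-(1/4) * t i) * ((y i 0 ^ 2 + y i 1 ^ 2 + y i 2 ^ 2) * sxx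
      - 2 * (y i 0 ^ 2 + y i 1 ^ 2 + y i 2 ^ 2) * (x j 0 * a0 + x j 1 * a1 + x j 2 * a2)
      + (y i 0 ^ 2 + y i 1 ^ 2 + y i 2 ^ 2) * (x j 0 ^ 2 + x j 1 ^ 2 + x j 2 ^ 2) * s0
      - 2 * (y i 0 * d0 + y i 1 * d1 + y i 2 * d2)
      + 4 * (y i 0 * (x j 0 * c00 + x j 1 * c10 + x j 2 * c20)
        + y i 1 * (x j 0 * c01 + x j 1 * c11 + x j 2 * c21)
        + y i 2 * (x j 0 * c02 + x j 1 * c12 + x j 2 * c22))
      - 2 * (x j 0 ^ 2 + x j 1 ^ 2 + x j 2 ^ 2) * (y i 0 * b0 + y i 1 * b1 + y i 2 * b2)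
      + sxxyy - 2 * (x j 0 * e0 + x j 1 * e1 + x j 2 * e2)
      + (x j 0 ^ 2 + x j 1 ^ 2 + x j 2 ^ 2) * syy)
  · intro i
    have b0 := sy 0
    have b1 := sy 1
    have b2 := sy 2
    simp only [Fin.sum_univ_five, sd, sq] at b0 b1 b2 s0 syy ⊢
    linear_combination (-(1/2) * t i) * ((y i 0 ^ 2 + y i 1 ^ 2 + y i 2 ^ 2) * s0
      - 2 * (y i 0 * b0 + y i 1 * b1 + y i 2 * b2) + syy)
  · intro i
    have a0 := sx 0
    have a1 := sx 1
    have a2 := sx 2
    simp only [Fin.sum_univ_five, sd, sq] at a0 a1 a2 s0 sxx ⊢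
    linear_combination (1/2) * ((x i 0 ^ 2 + x i 1 ^ 2 + x i 2 ^ 2) * s0
      - 2 * (x i 0 * a0 + x i 1 * a1 + x i 2 * a2) + sxx)

/-- at most one index with positive weight is impossible -/
theorem key_one (x y : Fin 5 → Fin 3 → ℝ) (h : ∀ i j, i ≠ j → sd (y i) (x j) = 1)
    (hne : ∀ i, sd (y i) (x i) ≠ 1) (hpos : ∀ i, i ≠ 0 → 1 < sd (y i) (x i)) : False := by
  obtain ⟨t, ht, s0, sx, sy, sxy, sxx, syy, sxxy, sxyy, sxxyy⟩ := moments x y h hne
  have tn : ∀ i, i ≠ 0 → t i < 0 := by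
    intro i hi
    by_contra hc
    push Not at hc
    have := ht i
    have := hpos i hi
    nlinarith
  have a0 := sx 0
  have a1 := sx 1
  have a2 := sx 2
  have b0 := sy 0
  have b1 := sy 1
  have b2 := sy 2
  have c00 := sxy 0 0
  have c11 := sxy 1 1
  have c22 := sxy 2 2
  simp only [Fin.sum_univ_five, sd, sq, if_true] at a0 a1 a2 b0 b1 b2 c00 c11 c22 s0 sxx syy
  -- `∑ t_j |(x_j - x_0) + (y_j - y_0)|² = 2`
  have e : ∀ j : Fin 5, t j * ((x j 0 - x 0 0 + (y j 0 - y 0 0)) ^ 2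
      + (x j 1 - x 0 1 + (y j 1 - y 0 1)) ^ 2 + (x j 2 - x 0 2 + (y j 2 - y 0 2)) ^ 2) ≤ 0 := by
    intro j
    by_cases hj : j = 0
    · subst hj; simp
    · exact mul_nonpos_of_nonpos_of_nonneg (tn j hj).le (by positivity)
  have f0 := e 0
  have f1 := e 1
  have f2 := e 2
  have f3 := e 3
  have f4 := e 4
  have tot : (0:ℝ) ≥ 2 := by
    have hsum := add_le_add (add_le_add (add_le_add (add_le_add f0 f1) f2) f3) f4
    refine le_trans (le_of_eq ?_) (le_trans hsum (by norm_num))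
    linear_combination -sxx - syy - 2 * (c00 + c11 + c22)
      + 2 * (x 0 0 + y 0 0) * (a0 + b0) + 2 * (x 0 1 + y 0 1) * (a1 + b1)
      + 2 * (x 0 2 + y 0 2) * (a2 + b2)
      - ((x 0 0 + y 0 0) ^ 2 + (x 0 1 + y 0 1) ^ 2 + (x 0 2 + y 0 2) ^ 2) * s0
  linarith

/-- Key lemma: five points of a unit-distance `K_{5,5}` minus a perfect matching in 3-space. -/
theorem key (x y : Fin 5 → Fin 3 → ℝ) (h : ∀ i j, i ≠ j → sd (y i) (x j) = 1) :
    ∃ i, sd (y i) (x i) = 1 := by
  by_contra hcon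
  push Not at hcon
  by_cases hex : ∃ i, sd (y i) (x i) < 1
  · obtain ⟨i, hi⟩ := hex
    by_cases hex2 : ∃ j, j ≠ i ∧ sd (y j) (x j) < 1
    · obtain ⟨j, hji, hj⟩ := hex2
      -- permutation with 0 ↦ i, 1 ↦ j
      have hperm : ∃ σ : Equiv.Perm (Fin 5), σ 0 = i ∧ σ 1 = j := by
        refine ⟨Equiv.swap 0 i * Equiv.swap 1 (Equiv.swap 0 i j), ?_, ?_⟩
        · rw [Equiv.Perm.mul_apply]
          have : Equiv.swap (1 : Fin 5) (Equiv.swap 0 i j) 0 = 0 := by
            apply Equiv.swap_apply_of_ne_of_ne (by decide)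
            intro h0
            have := congrArg (Equiv.swap (0 : Fin 5) i) h0
            rw [Equiv.swap_apply_left, Equiv.swap_apply_self] at this
            exact hji this.symm
          rw [this, Equiv.swap_apply_left]
        · rw [Equiv.Perm.mul_apply, Equiv.swap_apply_left, Equiv.swap_apply_self]
      obtain ⟨σ, h0, h1⟩ := hperm
      refine key01 (fun k => x (σ k)) (fun k => y (σ k))
        (fun a b hab => h _ _ (fun hh => hab (σ.injective hh))) (fun a => hcon _) ?_ ?_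
      · simpa [h0] using hi
      · simpa [h1] using hj
    · push Not at hex2
      refine key_one (fun k => x (Equiv.swap 0 i k)) (fun k => y (Equiv.swap 0 i k))
        (fun a b hab => h _ _ (fun hh => hab ((Equiv.swap 0 i).injective hh)))
        (fun a => hcon _) ?_
      intro k hk
      have : Equiv.swap 0 i k ≠ i := by
        intro hh
        apply hk
        have := congrArg (Equiv.swap (0 : Fin 5) i) hh
        rwa [Equiv.swap_apply_self, Equiv.swap_apply_right] at this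
      exact lt_of_le_of_ne (hex2 _ this) (fun hh => hcon _ hh.symm)
  · push Not at hex
    exact key_one x y h hcon (fun i _ => lt_of_le_of_ne (hex i) (fun hh => hcon i hh.symm))

end Pool.Agent.W269.Mae
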