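import Mathlib
import Pool.Agent.W269.MaeKey

set_option autoImplicit false

namespace Pool.Agent.W269.Mae

/-- if `u × v = 0`, `u ≠ 0`, then `v = l u` -/
theorem par (u v : Fin 3 → ℝ) (hu : u ≠ 0) (h01 : u 0 * v 1 = u 1 * v 0)
    (h02 : u 0 * v 2 = u 2 * v 0) (h12 : u 1 * v 2 = u 2 * v 1) : ∃ l : ℝ, v = l • u := by
  by_cases h0 : u 0 = 0
  · by_cases h1 : u 1 = 0
    · have h2 : u 2 ≠ 0 := by
        intro h2
        apply hu
        funext i; fin_cases i <;> simp [h0, h1, h2]
      refine ⟨v 2 / u 2, ?_⟩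
      funext i
      fin_cases i
      · simp only [Fin.zero_eta, Pi.smul_apply, smul_eq_mul]
        have : u 2 * v 0 = 0 := by rw [← h02, h0]; ring
        rcases mul_eq_zero.mp this with h | h
        · exact absurd h h2
        · rw [h, h0]; ring
      · simp only [Fin.mk_one, Pi.smul_apply, smul_eq_mul]
        have : u 2 * v 1 = 0 := by rw [← h12, h1]; ring
        rcases mul_eq_zero.mp this with h | h
        · exact absurd h h2
        · rw [h, h1]; ring
      · simp only [Fin.reduceFinMk, Pi.smul_apply, smul_eq_mul]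
        field_simp
    · refine ⟨v 1 / u 1, ?_⟩
      funext i
      fin_cases i
      · simp only [Fin.zero_eta, Pi.smul_apply, smul_eq_mul]
        field_simp; linarith
      · simp only [Fin.mk_one, Pi.smul_apply, smul_eq_mul]
        field_simp
      · simp only [Fin.reduceFinMk, Pi.smul_apply, smul_eq_mul]
        field_simp; linarith
  · refine ⟨v 0 / u 0, ?_⟩
    funext i
    fin_cases i
    · simp only [Fin.zero_eta, Pi.smul_apply, smul_eq_mul]
      field_simp
    · simp only [Fin.mk_one, Pi.smul_apply, smul_eq_mul]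
      field_simp; linarith
    · simp only [Fin.reduceFinMk, Pi.smul_apply, smul_eq_mul]
      field_simp; linarith

/-- three distinct points on a sphere are not collinear -/
theorem cross_ne (p q r a : Fin 3 → ℝ) (hp : sd p a = 1) (hq : sd q a = 1) (hr : sd r a = 1)
    (hpq : p ≠ q) (hpr : p ≠ r) (hqr : q ≠ r) :
    ¬ ((q 0 - p 0) * (r 1 - p 1) = (q 1 - p 1) * (r 0 - p 0) ∧
      (q 0 - p 0) * (r 2 - p 2) = (q 2 - p 2) * (r 0 - p 0) ∧
      (q 1 - p 1) * (r 2 - p 2) = (q 2 - p 2) * (r 1 - p 1)) := by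
  rintro ⟨h01, h02, h12⟩
  have hu : q - p ≠ 0 := sub_ne_zero.mpr (Ne.symm hpq)
  obtain ⟨l, hl⟩ := par (q - p) (r - p) hu h01 h02 h12
  have e0 : r 0 = p 0 + l * (q 0 - p 0) := by
    have := congrFun hl 0; simp only [Pi.sub_apply, Pi.smul_apply, smul_eq_mul] at this; linarith
  have e1 : r 1 = p 1 + l * (q 1 - p 1) := by
    have := congrFun hl 1; simp only [Pi.sub_apply, Pi.smul_apply, smul_eq_mul] at this; linarith
  have e2 : r 2 = p 2 + l * (q 2 - p 2) := by
    have := congrFun hl 2; simp only [Pi.sub_apply, Pi.smul_apply, smul_eq_mul] at this; linarith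
  have hn : sd q p ≠ 0 := by
    intro h0
    apply hpq
    unfold sd at h0
    have a0 : (q 0 - p 0) = 0 := by nlinarith [sq_nonneg (q 0 - p 0), sq_nonneg (q 1 - p 1), sq_nonneg (q 2 - p 2)]
    have a1 : (q 1 - p 1) = 0 := by nlinarith [sq_nonneg (q 0 - p 0), sq_nonneg (q 1 - p 1), sq_nonneg (q 2 - p 2)]
    have a2 : (q 2 - p 2) = 0 := by nlinarith [sq_nonneg (q 0 - p 0), sq_nonneg (q 1 - p 1), sq_nonneg (q 2 - p 2)]
    funext i
    fin_cases i
    · simp only [Fin.zero_eta]; linarith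
    · simp only [Fin.mk_one]; linarith
    · simp only [Fin.reduceFinMk]; linarith
  have hll : (l * (l - 1)) * sd q p = 0 := by
    unfold sd at *
    rw [e0, e1, e2] at hr
    linear_combination hr - (1 - l) * hp - l * hq
  rcases mul_eq_zero.mp hll with h | h
  · rcases mul_eq_zero.mp h with h | h
    · apply hpr
      funext i
      fin_cases i
      · simp only [Fin.zero_eta]; rw [e0, h]; ring
      · simp only [Fin.mk_one]; rw [e1, h]; ring
      · simp only [Fin.reduceFinMk]; rw [e2, h]; ring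
    · apply hqr
      have h : l = 1 := by linarith
      funext i
      fin_cases i
      · simp only [Fin.zero_eta]; rw [e0, h]; ring
      · simp only [Fin.mk_one]; rw [e1, h]; ring
      · simp only [Fin.reduceFinMk]; rw [e2, h]; ring
  · exact hn h

theorem par2 (s t m : Fin 3 → ℝ) (hs : ∀ i j, s i * m j = s j * m i)
    (ht : ∀ i j, t i * m j = t j * m i) (hm : ∃ k, m k ≠ 0) : ∀ i j, s i * t j = s j * t i := by
  obtain ⟨k, hk⟩ := hm
  intro i j
  have : (s i * t j - s j * t i) * m k ^ 2 = 0 := by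
    linear_combination (t j * m k) * hs i k + (s k * m i) * ht j k - (t i * m k) * hs j k
      - (s k * m j) * ht i k
  rcases mul_eq_zero.mp this with h | h
  · linarith
  · exact absurd (pow_eq_zero_iff (two_ne_zero) |>.mp h) hk

/-- no unit-distance `K_{3,3}` in 3-space -/
theorem k33 (p q r a b c : Fin 3 → ℝ) (hpq : p ≠ q) (hpr : p ≠ r) (hqr : q ≠ r)
    (hab : a ≠ b) (hac : a ≠ c) (hbc : b ≠ c)
    (hpa : sd p a = 1) (hpb : sd p b = 1) (hpc : sd p c = 1)
    (hqa : sd q a = 1) (hqb : sd q b = 1) (hqc : sd q c = 1)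
    (hra : sd r a = 1) (hrb : sd r b = 1) (hrc : sd r c = 1) : False := by
  have n1 := cross_ne p q r a hpa hqa hra hpq hpr hqr
  have n2 := cross_ne a b c p (by rw [sd_comm]; exact hpa) (by rw [sd_comm]; exact hpb)
    (by rw [sd_comm]; exact hpc) hab hac hbc
  unfold sd at *
  -- orthogonality relations
  have o1 : (q 0 - p 0) * (b 0 - a 0) + (q 1 - p 1) * (b 1 - a 1) + (q 2 - p 2) * (b 2 - a 2) = 0 := by
    linear_combination (1/2) * (hpb - hpa + hqa - hqb)
  have o2 : (q 0 - p 0) * (c 0 - a 0) + (q 1 - p 1) * (c 1 - a 1) + (q 2 - p 2) * (c 2 - a 2) = 0 := by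
    linear_combination (1/2) * (hpc - hpa + hqa - hqc)
  have o3 : (r 0 - p 0) * (b 0 - a 0) + (r 1 - p 1) * (b 1 - a 1) + (r 2 - p 2) * (b 2 - a 2) = 0 := by
    linear_combination (1/2) * (hpb - hpa + hra - hrb)
  have o4 : (r 0 - p 0) * (c 0 - a 0) + (r 1 - p 1) * (c 1 - a 1) + (r 2 - p 2) * (c 2 - a 2) = 0 := by
    linear_combination (1/2) * (hpc - hpa + hra - hrc)
  have K := par2 ![b 0 - a 0, b 1 - a 1, b 2 - a 2] ![c 0 - a 0, c 1 - a 1, c 2 - a 2]
    ![(q 1 - p 1) * (r 2 - p 2) - (q 2 - p 2) * (r 1 - p 1),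
      (q 2 - p 2) * (r 0 - p 0) - (q 0 - p 0) * (r 2 - p 2),
      (q 0 - p 0) * (r 1 - p 1) - (q 1 - p 1) * (r 0 - p 0)]
  apply n2
  have K2 := K ?_ ?_ ?_
  · exact ⟨K2 0 1, K2 0 2, K2 1 2⟩
  · intro i j
    fin_cases i <;> fin_cases j <;> simp
    · linear_combination (q 2 - p 2) * o3 - (r 2 - p 2) * o1
    · linear_combination (r 1 - p 1) * o1 - (q 1 - p 1) * o3
    · linear_combination -(q 2 - p 2) * o3 + (r 2 - p 2) * o1
    · linear_combination (q 0 - p 0) * o3 - (r 0 - p 0) * o1
    · linear_combination -(r 1 - p 1) * o1 + (q 1 - p 1) * o3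
    · linear_combination -(q 0 - p 0) * o3 + (r 0 - p 0) * o1
  · intro i j
    fin_cases i <;> fin_cases j <;> simp
    · linear_combination (q 2 - p 2) * o4 - (r 2 - p 2) * o2
    · linear_combination (r 1 - p 1) * o2 - (q 1 - p 1) * o4
    · linear_combination -(q 2 - p 2) * o4 + (r 2 - p 2) * o2
    · linear_combination (q 0 - p 0) * o4 - (r 0 - p 0) * o2
    · linear_combination -(r 1 - p 1) * o2 + (q 1 - p 1) * o4
    · linear_combination -(q 0 - p 0) * o4 + (r 0 - p 0) * o2
  · by_contra hcon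
    push Not at hcon
    apply n1
    have c0 := hcon 0
    have c1 := hcon 1
    have c2 := hcon 2
    simp at c0 c1 c2
    exact ⟨by linarith, by linarith, by linarith⟩

end Pool.Agent.W269.Mae
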