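import Mathlib
import Pool.Agent.W269.MaeK33

set_option autoImplicit false

namespace Pool.Agent.W269.Mae

abbrev E := EuclideanSpace ℝ (Fin 3)

theorem mem_sphere_iff (p c : E) : p ∈ Metric.sphere c 1 ↔ sd (p : Fin 3 → ℝ) c = 1 := by
  rw [Metric.mem_sphere, EuclideanSpace.dist_eq, Real.sqrt_eq_one, Fin.sum_univ_three]
  simp only [Real.dist_eq, sq_abs]
  rfl

theorem coe_ne {p q : E} (h : p ≠ q) : (p : Fin 3 → ℝ) ≠ (q : Fin 3 → ℝ) := by
  intro hh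
  apply h
  ext i
  exact congrFun hh i

/-- five distinct centres -/
theorem five (S : Set E)
    (hS : ∀ T : Set E, T ⊆ S → T.encard = 4 → ∃ p : E, ∀ c ∈ T, p ∈ Metric.sphere c 1)
    (c : Fin 5 → E) (hc : Function.Injective c) (hcS : ∀ i, c i ∈ S) :
    ∃ p : E, ∀ i, p ∈ Metric.sphere (c i) 1 := by
  have h1 : ∀ i : Fin 5, ∃ p : E, ∀ j, j ≠ i → p ∈ Metric.sphere (c j) 1 := by
    intro i
    obtain ⟨p, hp⟩ := hS (c '' {j | j ≠ i}) (by rintro _ ⟨j, _, rfl⟩; exact hcS j) (by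
      rw [hc.encard_image]
      have : {j : Fin 5 | j ≠ i} = ((Finset.univ.erase i : Finset (Fin 5)) : Set (Fin 5)) := by
        ext j; simp
      rw [this, Set.encard_coe_eq_coe_finsetCard, Finset.card_erase_of_mem (Finset.mem_univ _)]
      simp)
    exact ⟨p, fun j hj => hp _ ⟨j, hj, rfl⟩⟩
  choose p hp using h1
  obtain ⟨i, hi⟩ := key (fun j => (c j : Fin 3 → ℝ)) (fun j => (p j : Fin 3 → ℝ))
    (fun i j hij => (mem_sphere_iff _ _).mp (hp i j (Ne.symm hij)))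
  refine ⟨p i, fun j => ?_⟩
  by_cases hj : j = i
  · subst hj; exact (mem_sphere_iff _ _).mpr hi
  · exact hp i j hj

theorem main (S : Set E) (h5 : 5 ≤ S.encard)
    (hS : ∀ T : Set E, T ⊆ S → T.encard = 4 → ∃ p : E, ∀ c ∈ T, p ∈ Metric.sphere c 1) :
    ∃ p : E, ∀ c ∈ S, p ∈ Metric.sphere c 1 := by
  obtain ⟨T, hTS, hT5⟩ := Set.exists_subset_encard_eq h5
  have hTf : T.Finite := Set.finite_of_encard_eq_coe (k := 5) (by exact_mod_cast hT5)
  have hcard : hTf.toFinset.card = 5 := by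
    have := hTf.encard_eq_coe_toFinset_card
    rw [hT5] at this
    exact_mod_cast this.symm
  -- enumerate
  let e := hTf.toFinset.equivFinOfCardEq hcard
  let c : Fin 5 → E := fun i => (e.symm i : E)
  have hcinj : Function.Injective c := fun i j hij => e.symm.injective (Subtype.ext hij)
  have hcT : ∀ i, c i ∈ T := fun i => hTf.mem_toFinset.mp (e.symm i).2
  have hcS : ∀ i, c i ∈ S := fun i => hTS (hcT i)
  -- general five-point statement
  have F : ∀ a0 a1 a2 a3 a4 : E, a0 ∈ S → a1 ∈ S → a2 ∈ S → a3 ∈ S → a4 ∈ S →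
      a0 ≠ a1 → a0 ≠ a2 → a0 ≠ a3 → a0 ≠ a4 → a1 ≠ a2 → a1 ≠ a3 → a1 ≠ a4 → a2 ≠ a3 → a2 ≠ a4 →
      a3 ≠ a4 → ∃ p : E, p ∈ Metric.sphere a0 1 ∧ p ∈ Metric.sphere a1 1 ∧
        p ∈ Metric.sphere a2 1 ∧ p ∈ Metric.sphere a3 1 ∧ p ∈ Metric.sphere a4 1 := by
    intro a0 a1 a2 a3 a4 m0 m1 m2 m3 m4 h01 h02 h03 h04 h12 h13 h14 h23 h24 h34
    obtain ⟨p, hp⟩ := five S hS ![a0, a1, a2, a3, a4] (by
      intro i j hij
      fin_cases i <;> fin_cases j <;> simp at hij <;>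
        first
        | rfl
        | exact absurd hij (by assumption)
        | exact absurd hij.symm (by assumption)) (by
      intro i; fin_cases i <;> simp <;> assumption)
    exact ⟨p, hp 0, hp 1, hp 2, hp 3, hp 4⟩
  have hc : ∀ i j, i ≠ j → c i ≠ c j := fun i j hij h => hij (hcinj h)
  obtain ⟨p, hp0, hp1, hp2, hp3, hp4⟩ := F (c 0) (c 1) (c 2) (c 3) (c 4) (hcS _) (hcS _) (hcS _)
    (hcS _) (hcS _) (hc _ _ (by decide)) (hc _ _ (by decide)) (hc _ _ (by decide))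
    (hc _ _ (by decide)) (hc _ _ (by decide)) (hc _ _ (by decide)) (hc _ _ (by decide))
    (hc _ _ (by decide)) (hc _ _ (by decide)) (hc _ _ (by decide))
  by_contra hcon
  push Not at hcon
  obtain ⟨a, haS, ha⟩ := hcon p
  have ne_of : ∀ {x y q : E}, q ∈ Metric.sphere x 1 → q ∉ Metric.sphere y 1 → x ≠ y := by
    rintro x y q h1 h2 rfl; exact h2 h1
  obtain ⟨q, hq0, hq1, hq2, hq3, hqa⟩ := F (c 0) (c 1) (c 2) (c 3) a (hcS _) (hcS _) (hcS _)
    (hcS _) haS (hc _ _ (by decide)) (hc _ _ (by decide)) (hc _ _ (by decide))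
    (ne_of hp0 ha) (hc _ _ (by decide)) (hc _ _ (by decide)) (ne_of hp1 ha)
    (hc _ _ (by decide)) (ne_of hp2 ha) (ne_of hp3 ha)
  obtain ⟨b, hbS, hb⟩ := hcon q
  obtain ⟨r, hr0, hr1, hr2, hra, hrb⟩ := F (c 0) (c 1) (c 2) a b (hcS _) (hcS _) (hcS _)
    haS hbS (hc _ _ (by decide)) (hc _ _ (by decide)) (ne_of hp0 ha)
    (ne_of hq0 hb) (hc _ _ (by decide)) (ne_of hp1 ha) (ne_of hq1 hb)
    (ne_of hp2 ha) (ne_of hq2 hb) (ne_of hqa hb)
  have hpq : p ≠ q := by rintro rfl; exact ha hqa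
  have hpr : p ≠ r := by rintro rfl; exact ha hra
  have hqr : q ≠ r := by rintro rfl; exact hb hrb
  rw [mem_sphere_iff] at hp0 hp1 hp2 hq0 hq1 hq2 hr0 hr1 hr2
  exact k33 p q r (c 0) (c 1) (c 2) (coe_ne hpq) (coe_ne hpr) (coe_ne hqr)
    (coe_ne (hc _ _ (by decide))) (coe_ne (hc _ _ (by decide))) (coe_ne (hc _ _ (by decide)))
    hp0 hp1 hp2 hq0 hq1 hq2 hr0 hr1 hr2

end Pool.Agent.W269.Mae
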